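import Mathlib
import Pool.Agent.Results.MP_429122_al.GradedCore

namespace Pool.Agent.Results.MP_429122_al.AllReductions

open Pool.Agent.Results.MP_429122_al.GradedCore

universe u v

/-- For every maximal ideal `P` of every commutative ring, the core of the maximal ideal of the
localization at `P` is the extension of the core of `P`, both cores being taken over all
reductions. -/
theorem core_localization {A : Type v} [CommRing A] (P : Ideal A) [hP : P.IsMaximal] :
    core (IsLocalRing.maximalIdeal (Localization.AtPrime P)) =
      (core P).map (algebraMap A (Localization.AtPrime P)) := by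
  have hcomap : (core (IsLocalRing.maximalIdeal (Localization.AtPrime P))).comap
      (algebraMap A (Localization.AtPrime P)) = core P := by
    apply le_antisymm
    · refine le_sInf ?_
      intro J hJ
      have hJ' : IsReduction J P := hJ
      intro x hx
      obtain ⟨N, hN⟩ := pow_le_of_isReduction hJ'
      exact mem_of_map_mem P hN (core_le (map_isReduction P hJ') hx)
    · intro x hx
      show algebraMap A (Localization.AtPrime P) x ∈ core _
      rw [core, Submodule.mem_sInf]
      intro K hK
      exact core_le (comap_isReduction P hK) hx
  rw [← hcomap]
  exact (IsLocalization.map_under P.primeCompl _ _).symm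

/-- The equality `core (P A_P) = (core P) A_P` for a prime ideal `P` of a commutative ring `A`. -/
def LocalCore {A : Type v} [CommRing A] (P : Ideal A) [P.IsPrime] : Prop :=
  core (IsLocalRing.maximalIdeal (Localization.AtPrime P)) =
    (core P).map (algebraMap A (Localization.AtPrime P))

/-- `A` has a standard grading over an infinite field whose irrelevant ideal is `P`. -/
def IsIrrelevantIdeal {A : Type v} [CommRing A] (P : Ideal A) : Prop :=
  ∃ (k : Type u) (_ : Field k) (_ : Infinite k) (_ : Algebra k A) (𝒜 : ℕ → Submodule k A)
    (_ : GradedAlgebra 𝒜), IsStandardGraded 𝒜 ∧ P = (HomogeneousIdeal.irrelevant 𝒜).toIdeal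

/-- The Huneke–Trung equality `core(m) = core(A_+) R`, with `core` the intersection of all
reductions (not only the homogeneous ones), holds for every standard graded algebra `A` over every
infinite field; here `R` is the localization of `A` at `A_+` and `m` its maximal ideal. It even
holds for every maximal ideal `P` of every commutative ring. -/
theorem result : (∀ (A : Type v) [CommRing A] (P : Ideal A) [P.IsPrime],
      IsIrrelevantIdeal.{u, v} P → LocalCore P) ∧
    ∀ (A : Type v) [CommRing A] (P : Ideal A) [P.IsMaximal], LocalCore P := by
  refine ⟨?_, fun A _ P _ => core_localization P⟩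
  rintro A _ P _ ⟨k, _, _, _, 𝒜, _, h, hP⟩
  have hmax : P.IsMaximal := by rw [hP]; exact irrelevant_isMaximal 𝒜 h
  exact core_localization P

end Pool.Agent.Results.MP_429122_al.AllReductions
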